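import Pool.Agent.helper52.SSE.Main

/-!
# Shift equivalence classes: matrices of bounded degree fall into finitely many SSE classes
-/

set_option autoImplicit false

namespace Pool.Agent.Results.MP_c782ad_an.BoundedDegree

open Pool.Agent.helper52.SSE

theorem result (n : ℕ) (A : Matrix (Fin n) (Fin n) ℕ) (hA : ∃ k : ℕ, ∀ i j, 0 < (A ^ k) i j) :
    (∀ (e m : ℕ) (B : Matrix (Fin m) (Fin m) ℕ), SE A B → DegLe e B →
      ∃ X : NM, X.1 ≤ bound A e ∧ (∀ i j, X.2 i j ≤ bound A e) ∧ SSE ⟨m, B⟩ X) ∧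
    (∀ (l m : ℕ) (B : Matrix (Fin m) (Fin m) ℕ), SEl l A B → DegLe (l + n) B) ∧
    (FiniteRefinement A ↔
      ∃ e : ℕ, ∀ (m : ℕ) (B : Matrix (Fin m) (Fin m) ℕ), SE A B →
        ∃ (m' : ℕ) (B' : Matrix (Fin m') (Fin m') ℕ),
          SE A B' ∧ SSE ⟨m, B⟩ ⟨m', B'⟩ ∧ DegLe e B') := by
  refine ⟨fun e m B h hB => ?_, fun l m B h => degLe_of_lag h, iff_degree A hA⟩
  obtain ⟨X, ⟨h1, h2⟩, h3⟩ := sse_small hA h hB
  exact ⟨X, h1, h2, h3⟩

end Pool.Agent.Results.MP_c782ad_an.BoundedDegree
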